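import Pool.Agent.V1110.HeMod

/-!
An exceptional sequence in type `D₄` whose Hom-Ext quiver has a commutativity relation.
-/

set_option autoImplicit false

namespace Pool.Agent.Results.MP_2a1499_al.CommutativeSquare

open CategoryTheory CategoryTheory.Limits CategoryTheory.Abelian Pool.Agent.V1110.He

universe u

section

variable (k : Type u) [Field k]

theorem indec (i : Fin 4) : Indecomposable (XD k i) :=
  indec_gen (id_ne_zero k i) (end_eq k)

theorem excSeq : IsExcSeq (XD k) := by
  refine ⟨fun i => ⟨indec k i, ext_vanish k i i⟩, fun i j hij => ⟨?_, ext_vanish k i j⟩⟩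
  refine subsingleton_of_forall_eq 0 fun f => hom_eq_zero k (wd_not_mem k ?_) f
  fin_cases i <;> fin_cases j <;> simp_all

theorem rad_end {i : Fin 4} {f : XD k i ⟶ XD k i} (hf : f ∈ radHom (XD k i) (XD k i)) : f = 0 :=
  rad_end_gen (id_ne_zero k i) (end_eq k) hf

variable {k}

theorem exists_arrow (Γ : HomExt k (XD k)) {i j : Fin 4} (hij : wd k i ∈ Id k j)
    (hji : ∀ g : XD k j ⟶ XD k i, g = 0)
    (h2 : ∀ (l : Fin 4) (f : XD k i ⟶ XD k l) (g : XD k l ⟶ XD k j), f ∈ radHom _ _ →
      g ∈ radHom _ _ → f ≫ g = 0) : ∃ a : Γ.Hm i j, Γ.f i j a ≠ 0 := by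
  obtain ⟨π, hπ⟩ := exists_proj k hij
  refine exists_arrow_gen Γ π ?_ ?_ h2
  · rintro rfl
    exact gn_ne k j hπ.symm
  · intro g
    rw [hji g, comp_zero, sub_zero]
    infer_instance

theorem comp_ne {i j l : Fin 4} {f : XD k i ⟶ XD k j} {g : XD k j ⟶ XD k l} (hf : f ≠ 0)
    (hg : g ≠ 0) : ∃ c : k, c ≠ 0 ∧ (f ≫ g).hom (gn k i) = algebraMap k (AD k) c • gn k l := by
  obtain ⟨c, hc⟩ := hom_scalar k f
  obtain ⟨d, hd⟩ := hom_scalar k g
  have hc0 : c ≠ 0 := by
    rintro rfl
    apply hf
    refine hom_ext_gn k ?_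
    rw [hc, map_zero, zero_smul]; rfl
  have hd0 : d ≠ 0 := by
    rintro rfl
    apply hg
    refine hom_ext_gn k ?_
    rw [hd, map_zero, zero_smul]; rfl
  refine ⟨c * d, mul_ne_zero hc0 hd0, ?_⟩
  show g.hom (f.hom (gn k i)) = _
  rw [hc]
  have := g.hom.map_smul (algebraMap k (AD k) c) (gn k j)
  rw [hd] at this
  rw [map_mul, mul_smul]
  exact this

theorem not_monomial (Γ : HomExt k (XD k)) : ¬ Γ.MonomialGenerated := by
  intro hM
  have Z : ∀ {i j : Fin 4}, (i, j) ∈ ({(1, 0), (2, 0), (3, 0), (2, 1), (3, 1), (3, 2),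
    (1, 2)} : Set (Fin 4 × Fin 4)) → ∀ f : XD k i ⟶ XD k j, f = 0 :=
    fun h f => hom_eq_zero k (wd_not_mem k h) f
  obtain ⟨a, ha⟩ := exists_arrow Γ (i := 0) (j := 1) (wd_mem_of k (by simp)) (Z (by simp)) (by
    intro l f g hf hg
    fin_cases l
    · have : f = 0 := rad_end k hf
      rw [this, zero_comp]
    · have : g = 0 := rad_end k hg
      rw [this, comp_zero]
    · have : g = 0 := Z (by simp) g
      rw [this, comp_zero]
    · have : g = 0 := Z (by simp) g
      rw [this, comp_zero])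
  obtain ⟨b, hb⟩ := exists_arrow Γ (i := 0) (j := 2) (wd_mem_of k (by simp)) (Z (by simp)) (by
    intro l f g hf hg
    fin_cases l
    · have : f = 0 := rad_end k hf
      rw [this, zero_comp]
    · have : g = 0 := Z (by simp) g
      rw [this, comp_zero]
    · have : g = 0 := rad_end k hg
      rw [this, comp_zero]
    · have : g = 0 := Z (by simp) g
      rw [this, comp_zero])
  obtain ⟨c, hc⟩ := exists_arrow Γ (i := 1) (j := 3) (wd_mem_of k (by simp)) (Z (by simp)) (by
    intro l f g hf hg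
    fin_cases l
    · have : f = 0 := Z (by simp) f
      rw [this, zero_comp]
    · have : f = 0 := rad_end k hf
      rw [this, zero_comp]
    · have : f = 0 := Z (by simp) f
      rw [this, zero_comp]
    · have : g = 0 := rad_end k hg
      rw [this, comp_zero])
  obtain ⟨d, hd⟩ := exists_arrow Γ (i := 2) (j := 3) (wd_mem_of k (by simp)) (Z (by simp)) (by
    intro l f g hf hg
    fin_cases l
    · have : f = 0 := Z (by simp) f
      rw [this, zero_comp]
    · have : f = 0 := Z (by simp) f
      rw [this, zero_comp]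
    · have : f = 0 := rad_end k hf
      rw [this, zero_comp]
    · have : g = 0 := rad_end k hg
      rw [this, comp_zero])
  obtain ⟨r, hr0, hr⟩ := comp_ne ha hc
  obtain ⟨s, hs0, hs⟩ := comp_ne hb hd
  refine not_monomial_gen Γ (show (1 : Fin 4) ≠ 2 by decide) a c b d ?_ r s hs0 ?_ hM
  · intro h0
    apply scalar_ne k (j := 3) hr0
    rw [← hr, h0]; rfl
  · show sm k s (Γ.f 0 1 a ≫ Γ.f 1 3 c) = sm k r (Γ.f 0 2 b ≫ Γ.f 2 3 d)
    refine hom_ext_gn k ?_
    rw [sm_apply, sm_apply, hr, hs, smul_smul, smul_smul, ← map_mul, ← map_mul, mul_comm]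

end

/-- For every field `k` there are a finite acyclic quiver (with vertices `Fin n`, arrows `Fin e`,
source map `s` and target map `t`) and an exceptional sequence `X` of finitely generated modules
over its path algebra, such that the ideal `R` of the Hom-Ext quiver of `X` (which exists, and
whatever choice of arrows is made) is not generated by monomial relations. -/
theorem result (k : Type u) [Field k] :
    ∃ (n e : ℕ) (s t : Fin e → Fin n), (∃ r : Fin n → ℕ, ∀ a, r (s a) < r (t a)) ∧
      ∃ (m : ℕ) (X : Fin m → ModuleCat.{u} (PathAlg k s t)),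
        (∀ i, Module.Finite (PathAlg k s t) (X i)) ∧ IsExcSeq X ∧ Nonempty (HomExt k X) ∧
          ∀ Γ : HomExt k X, ¬ Γ.MonomialGenerated := by
  refine ⟨4, 3, sD, tD, ⟨![1, 0, 2, 2], ?_⟩, 4, XD k, fun i => ?_, excSeq k,
    nonempty_homExt k (XD k), not_monomial⟩
  · intro a; fin_cases a <;> decide
  · exact Module.Finite.quotient (AD k) (Id k i)

end Pool.Agent.Results.MP_2a1499_al.CommutativeSquare
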